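import Mathlib
import Pool.Agent.X101.Skew

/-! MP_25d917_an, Q1: the decay rate of the LQR-optimal closed loop with skew-Hermitian dynamics is
bounded uniformly in `B`. -/

namespace Pool.Agent.Results.MP_25d917_an.DecayBound

open Module Complex Matrix Pool.Agent.X101.Inertia
open scoped ComplexOrder

/-- Kalman controllability of the pair `(A, B)`: the ranges of `B, A B, ..., A^(n-1) B` together
span the whole space `ℂ^n`. -/
def Controllable {n m : ℕ} (A : Matrix (Fin n) (Fin n) ℂ) (B : Matrix (Fin n) (Fin m) ℂ) : Prop :=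
  (⨆ k : Fin n, LinearMap.range (Matrix.mulVecLin (A ^ (k : ℕ) * B))) = ⊤

/-- `X` is a Hermitian positive definite solution of the algebraic Riccati equation
`A* X + X A - X B B* X + I = 0`. -/
def IsRiccatiSolution {n m : ℕ} (A : Matrix (Fin n) (Fin n) ℂ) (B : Matrix (Fin n) (Fin m) ℂ)
    (X : Matrix (Fin n) (Fin n) ℂ) : Prop :=
  X.PosDef ∧ Aᴴ * X + X * A - X * B * Bᴴ * X + 1 = 0

/-- minus the largest real part of an eigenvalue of `M`. -/
noncomputable def decayRate {n : ℕ} (M : Matrix (Fin n) (Fin n) ℂ) : ℝ :=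
  -sSup {x : ℝ | ∃ ν ∈ spectrum ℂ M, x = ν.re}

/-- the diameter of the spectrum: the largest distance between two eigenvalues of `A`. -/
noncomputable def specDiam {n : ℕ} (A : Matrix (Fin n) (Fin n) ℂ) : ℝ :=
  sSup {x : ℝ | ∃ ν ∈ spectrum ℂ A, ∃ μ ∈ spectrum ℂ A, x = ‖ν - μ‖}

theorem norm_sub_le_specDiam {n : ℕ} (A : Matrix (Fin n) (Fin n) ℂ) :
    ∀ ν ∈ spectrum ℂ A, ∀ μ ∈ spectrum ℂ A, ‖ν - μ‖ ≤ specDiam A := by
  intro ν hν μ hμ
  have hfin : ({x : ℝ | ∃ ν ∈ spectrum ℂ A, ∃ μ ∈ spectrum ℂ A, x = ‖ν - μ‖}).Finite := by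
    have h1 := (Matrix.finite_spectrum A).image2 (fun a b => ‖a - b‖) (Matrix.finite_spectrum A)
    refine h1.subset ?_
    rintro x ⟨a, ha, b, hb, rfl⟩
    exact ⟨a, ha, b, hb, rfl⟩
  exact le_csSup hfin.bddAbove ⟨ν, hν, μ, hμ, rfl⟩

theorem decayRate_le {n : ℕ} (M : Matrix (Fin n) (Fin n) ℂ) (c : ℝ) (ν : ℂ)
    (hν : ν ∈ spectrum ℂ M) (hc : -c ≤ ν.re) : decayRate M ≤ c := by
  have hfin : ({x : ℝ | ∃ ν ∈ spectrum ℂ M, x = ν.re}).Finite := by
    refine ((Matrix.finite_spectrum M).image Complex.re).subset ?_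
    rintro x ⟨a, ha, rfl⟩
    exact ⟨a, ha, rfl⟩
  have h1 : ν.re ≤ sSup {x : ℝ | ∃ ν ∈ spectrum ℂ M, x = ν.re} :=
    le_csSup hfin.bddAbove ⟨ν, hν, rfl⟩
  unfold decayRate
  linarith

theorem main {n m : ℕ} (hmn : m < n) (A : Matrix (Fin n) (Fin n) ℂ) (hA : Aᴴ = -A)
    (B : Matrix (Fin n) (Fin m) ℂ) (X : Matrix (Fin n) (Fin n) ℂ) (hX : IsRiccatiSolution A B X) :
    ∃ ν ∈ spectrum ℂ (A - B * Bᴴ * X), -((n + 1) * specDiam A) ≤ ν.re := by
  obtain ⟨hXpd, hric⟩ := hX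
  have hn : 0 < n := by omega
  have hdet : IsUnit X.det := (Matrix.isUnit_iff_isUnit_det X).1 hXpd.isUnit
  have hXY : X * X⁻¹ = 1 := Matrix.mul_nonsing_inv X hdet
  have hYX : X⁻¹ * X = 1 := Matrix.nonsing_inv_mul X hdet
  have hYpd : (X⁻¹).PosDef := hXpd.inv
  set Y := X⁻¹ with hYdef
  have hYH : Y.IsHermitian := hYpd.isHermitian
  -- the key identity
  have hBB : B * Bᴴ = Y * Y + (A * Y - Y * A) := by
    rw [hA, Matrix.mul_assoc X B Bᴴ] at hric
    generalize B * Bᴴ = C at hric ⊢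
    have h1 : Y * (-A * X + X * A - X * C * X + 1) * Y = 0 := by rw [hric]; simp
    have h2 : Y * (-A * X + X * A - X * C * X + 1) * Y
        = -(Y * A * (X * Y)) + (Y * X) * A * Y - (Y * X) * C * (X * Y) + Y * Y := by
      noncomm_ring
    rw [h2, hXY, hYX] at h1
    simp only [Matrix.mul_one, Matrix.one_mul] at h1
    have h3 : C = Y * Y + (A * Y - Y * A) - (-(Y * A) + A * Y - C + Y * Y) := by
      abel
    rw [h1, sub_zero] at h3
    exact h3
  have hcl : A - B * Bᴴ * X = Y * (A - Y) * X := by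
    rw [hBB]
    have : A - (Y * Y + (A * Y - Y * A)) * X = A - A * (Y * X) + (Y * A * X - Y * Y * X) := by
      noncomm_ring
    rw [this, hYX]
    noncomm_ring
  -- operators
  set T := Matrix.toEuclideanCLM (n := Fin n) (𝕜 := ℂ) with hT
  obtain ⟨a, ha⟩ := skew_centred hn A hA (specDiam A) (norm_sub_le_specDiam A)
  set A' : EuclideanSpace ℂ (Fin n) →L[ℂ] EuclideanSpace ℂ (Fin n) :=
    T (A - (a * I : ℂ) • 1) with hA'
  have hA'app : ∀ x, A' x = T A x - (a * I : ℂ) • x := by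
    intro x
    rw [hA', map_sub, map_smul, map_one]
    rfl
  have hA'n : ∀ x, ‖A' x‖ ≤ specDiam A / 2 * ‖x‖ := by
    intro x
    rw [hA'app]
    exact ha x
  have hTY : star (T Y) = T Y := by
    rw [← map_star, Matrix.star_eq_conjTranspose, hYH]
  have hA'star : star A' = -A' := by
    rw [hA', ← map_star, Matrix.star_eq_conjTranspose, ← map_neg]
    congr 1
    rw [Matrix.conjTranspose_sub, hA, Matrix.conjTranspose_smul, Matrix.conjTranspose_one]
    have h2 : star ((a : ℂ) * I) = -((a : ℂ) * I) := by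
      simp
    rw [h2, neg_smul]
    abel
  -- kernel vector
  have hker : (Matrix.mulVecLin Bᴴ).ker ≠ ⊥ := by
    apply LinearMap.ker_ne_bot_of_finrank_lt
    simpa using hmn
  obtain ⟨v0, hv0ker, hv0ne⟩ := (Submodule.ne_bot_iff _).1 hker
  have hv0 : Bᴴ *ᵥ v0 = 0 := by
    simpa using hv0ker
  set v : EuclideanSpace ℂ (Fin n) := WithLp.toLp 2 v0 with hv
  have hvne : v ≠ 0 := by
    intro h0
    apply hv0ne
    have := congrArg WithLp.ofLp h0
    simpa [hv] using this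
  have hvpos : 0 < ‖v‖ := norm_pos_iff.2 hvne
  have hTBB : T (B * Bᴴ) v = 0 := by
    apply WithLp.ofLp_injective 2
    rw [hT, Matrix.ofLp_toEuclideanCLM, ← Matrix.mulVec_mulVec]
    change B *ᵥ (Bᴴ *ᵥ v0) = 0
    rw [hv0, Matrix.mulVec_zero]
  have hident : T Y (T Y v) + (A' (T Y v) - T Y (A' v)) = 0 := by
    rw [hBB, map_add, map_sub, map_mul, map_mul, map_mul] at hTBB
    have h1 : A' (T Y v) - T Y (A' v) = T A (T Y v) - T Y (T A v) := by
      rw [hA'app, hA'app, map_sub, map_smul]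
      abel
    rw [h1]
    simpa using hTBB
  have hinner : inner ℂ v (T Y (T Y v) + (A' (T Y v) - T Y (A' v))) = (0 : ℂ) := by
    rw [hident, inner_zero_right]
  have hYsym : ∀ x z, inner ℂ x (T Y z) = inner ℂ (T Y x) z := by
    intro x z
    rw [← ContinuousLinearMap.adjoint_inner_left, ← ContinuousLinearMap.star_eq_adjoint, hTY]
  have hAsym : ∀ x z, inner ℂ x (A' z) = -inner ℂ (A' x) z := by
    intro x z
    rw [← ContinuousLinearMap.adjoint_inner_left, ← ContinuousLinearMap.star_eq_adjoint, hA'star]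
    simp
  rw [inner_add_right, inner_sub_right, hYsym v (T Y v), hYsym v (A' v), hAsym v (T Y v)] at hinner
  have hYv : ‖T Y v‖ ≤ specDiam A * ‖v‖ := by
    have h1 : (inner ℂ (T Y v) (T Y v) : ℂ)
        = inner ℂ (A' v) (T Y v) + inner ℂ (T Y v) (A' v) := by
      linear_combination hinner
    have h2 : ‖T Y v‖ ^ 2 ≤ 2 * (‖A' v‖ * ‖T Y v‖) := by
      have h3 : ‖(inner ℂ (T Y v) (T Y v) : ℂ)‖ ≤ ‖A' v‖ * ‖T Y v‖ + ‖T Y v‖ * ‖A' v‖ := by
        rw [h1]
        exact (norm_add_le _ _).trans (add_le_add (norm_inner_le_norm _ _) (norm_inner_le_norm _ _))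
      rw [inner_self_eq_norm_sq_to_K] at h3
      have h4 : ‖((‖T Y v‖ : ℂ)) ^ 2‖ = ‖T Y v‖ ^ 2 := by
        rw [norm_pow, Complex.norm_real, norm_norm]
      have h5 : ‖((‖T Y v‖ : ℂ)) ^ 2‖ ≤ ‖A' v‖ * ‖T Y v‖ + ‖T Y v‖ * ‖A' v‖ := h3
      rw [h4] at h5
      linarith
    have h6 := hA'n v
    by_cases h0 : ‖T Y v‖ = 0
    · rw [h0]
      have : 0 ≤ specDiam A / 2 * ‖v‖ := (norm_nonneg _).trans h6
      linarith
    · have hpos : 0 < ‖T Y v‖ := lt_of_le_of_ne (norm_nonneg _) (Ne.symm h0)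
      have h7 : ‖T Y v‖ ≤ 2 * ‖A' v‖ := by
        by_contra hcon
        push Not at hcon
        nlinarith
      linarith
  -- eigenbasis of Y
  set b := hYH.eigenvectorBasis with hb
  set y := hYH.eigenvalues with hy
  have hTYb : ∀ i, T Y (b i) = (y i : ℂ) • b i := by
    intro j
    have h1 := hYH.mulVec_eigenvectorBasis j
    apply (WithLp.ofLp_injective 2)
    rw [hT, Matrix.ofLp_toEuclideanCLM, h1]
    rfl
  have hΔ0 : 0 ≤ specDiam A := by
    by_contra hcon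
    push Not at hcon
    have := (norm_nonneg _).trans hYv
    nlinarith
  have hypos : ∀ i, 0 < y i := hYpd.eigenvalues_pos
  obtain ⟨i0, hi0⟩ := le_norm_diag b (fun i => (y i : ℂ)) (T Y).toLinearMap hTYb
    (specDiam A) hΔ0 v hvne hYv
  have hyi0 : y i0 ≤ specDiam A := by
    rw [Complex.norm_real, Real.norm_eq_abs, abs_of_pos (hypos i0)] at hi0
    exact hi0
  have hΔpos : 0 < specDiam A := lt_of_lt_of_le (hypos i0) hyi0
  have hn1 : (1 : ℝ) ≤ n := by exact_mod_cast hn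
  set D : ℝ := n * specDiam A / (n - 1 / 2) with hD
  have hDgt : 2 * (specDiam A / 2) < D := by
    rw [hD, lt_div_iff₀ (by linarith)]
    nlinarith
  have hDeq : (n - 1 / 2) * D = n * specDiam A := by
    rw [hD]
    have : (n : ℝ) - 1 / 2 ≠ 0 := by linarith
    exact mul_div_cancel₀ _ this
  obtain ⟨ν, hν, hνre⟩ := exists_eigenvalue_re_ge b y A'.toLinearMap (T Y).toLinearMap hTYb
    (specDiam A / 2) D (by linarith) hDgt hA'n i0
  -- transfer to the closed loop matrix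
  obtain ⟨x, hx⟩ := hν.exists_hasEigenvector
  have hx1 : A' x - T Y x = ν • x := hx.apply_eq_smul
  have hx2 : T (A - Y) x = (ν + a * I) • x := by
    have h0 : T (A - Y) x = T A x - T Y x := by rw [map_sub]; rfl
    have h1 : T A x = A' x + (a * I : ℂ) • x := by
      rw [hA'app]; abel
    rw [h0, h1, add_smul, ← hx1]
    abel
  have hx3 : (A - Y) *ᵥ x.ofLp = (ν + a * I) • x.ofLp := by
    have := congrArg WithLp.ofLp hx2
    rw [hT, Matrix.ofLp_toEuclideanCLM] at this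
    exact this
  have hx0 : x.ofLp ≠ 0 := by
    intro h0
    exact hx.2 (WithLp.ofLp_injective 2 h0)
  refine ⟨ν + a * I, ?_, ?_⟩
  · rw [← Matrix.spectrum_toLin', ← End.hasEigenvalue_iff_mem_spectrum]
    apply End.hasEigenvalue_of_hasEigenvector (x := Y *ᵥ x.ofLp)
    refine ⟨?_, ?_⟩
    · rw [End.mem_eigenspace_iff, Matrix.toLin'_apply, hcl, Matrix.mulVec_mulVec]
      have h1 : Y * (A - Y) * X * Y = Y * (A - Y) := by
        rw [Matrix.mul_assoc, hXY, Matrix.mul_one]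
      rw [h1, ← Matrix.mulVec_mulVec, hx3, Matrix.mulVec_smul]
    · intro h0
      apply hx0
      have h1 : X *ᵥ (Y *ᵥ x.ofLp) = x.ofLp := by
        rw [Matrix.mulVec_mulVec, hXY, Matrix.one_mulVec]
      rw [← h1, h0, Matrix.mulVec_zero]
  · have h1 : (ν + a * I).re = ν.re := by simp
    rw [h1]
    rw [hDeq] at hνre
    linarith

theorem result : ∀ n m : ℕ, 1 ≤ m → m < n → ∀ A : Matrix (Fin n) (Fin n) ℂ, Aᴴ = -A →
    ∀ B : Matrix (Fin n) (Fin m) ℂ, Controllable A B →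
      ∀ X : Matrix (Fin n) (Fin n) ℂ, IsRiccatiSolution A B X →
        decayRate (A - B * Bᴴ * X) ≤ (n + 1) * specDiam A := by
  intro n m _ hmn A hA B _ X hX
  obtain ⟨ν, hν, hre⟩ := main hmn A hA B X hX
  exact decayRate_le _ _ ν hν hre

end Pool.Agent.Results.MP_25d917_an.DecayBound
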